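import Pool.Agent.R475.Avoid.Null

/-!
# Two sets which strongly avoid one another
-/

set_option autoImplicit false

namespace Pool.Agent.R475.Avoid

open Set Cardinal Topology MeasureTheory Pool.Agent.H3R3.Rigid Pool.Agent.Y443.BR
open Pool.Agent.W684 Pool.Agent.R475.SH
open scoped ENNReal

/-- the fibre, if it is null -/
noncomputable def fib (F : C → C) (y : C) : Set C :=
  letI := Classical.dec (mu (F ⁻¹' {y}) = 0)
  if mu (F ⁻¹' {y}) = 0 then F ⁻¹' {y} else ∅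

lemma mu_fib (F : C → C) (y : C) : mu (fib F y) = 0 := by
  unfold fib
  split_ifs with h
  · exact h
  · exact measure_empty

lemma mem_fib {F : C → C} {x y : C} (h : mu (F ⁻¹' {y}) = 0) (hx : F x = y) : x ∈ fib F y := by
  unfold fib
  rw [if_pos h]
  exact hx

/-- the values with fibres of positive measure -/
def Pos (F : C → C) : Set C := {y | mu (F ⁻¹' {y}) ≠ 0}

lemma pos_countable {F : C → C} (hF : Measurable F) : (Pos F).Countable := by
  have h := Measure.countable_meas_level_set_pos (μ := mu) (g := F) hF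
  refine h.mono fun y hy => ?_
  have hy : mu (F ⁻¹' {y}) ≠ 0 := hy
  exact pos_iff_ne_zero.2 hy

/-- the recursion -/
structure Good (F : Lam → C → C) (B : Lam → Set C) (x y : Lam → C) : Prop where
  xB : ∀ i, x i ∈ B i
  yB : ∀ i, y i ∈ B i
  xx : ∀ i, ∀ j < i, x i ≠ x j
  yy : ∀ i, ∀ j < i, y i ≠ y j
  xf : ∀ i, ∀ j < i, ∀ k < i, x i ∉ fib (F k) (y j)
  xi : ∀ i, ∀ j < i, ∀ k < i, x i ≠ F k (y j)
  yf : ∀ i, ∀ j ≤ i, ∀ k < i, y i ∉ fib (F k) (x j)
  yi : ∀ i, ∀ j ≤ i, ∀ k < i, y i ≠ F k (x j)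

lemma exists_good (hnull : ∀ (ι : Type), #ι < 𝔠 → ∀ N : ι → Set C, (∀ i, mu (N i) = 0) →
      mu (⋃ i, N i) = 0)
    (F : Lam → C → C) (B : Lam → Set C) (hB : ∀ i, mu (B i) ≠ 0) :
    ∃ x y : Lam → C, Good F B x y := by
  classical
  let Q : ∀ i : Lam, (∀ j, j < i → C × C) → C × C → Prop := fun i g p =>
    p.1 ∈ B i ∧ p.2 ∈ B i ∧
    (∀ j (hj : j < i), p.1 ≠ (g j hj).1 ∧ p.2 ≠ (g j hj).2 ∧ ∀ k < i,
      p.1 ∉ fib (F k) (g j hj).2 ∧ p.1 ≠ F k (g j hj).2 ∧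
      p.2 ∉ fib (F k) (g j hj).1 ∧ p.2 ≠ F k (g j hj).1) ∧
    ∀ k < i, p.2 ∉ fib (F k) p.1 ∧ p.2 ≠ F k p.1
  have hQ : ∀ i g, ∃ a, Q i g a := by
    intro i g
    have hI : #(Iio i) < 𝔠 := mk_preimage_lam i
    have hII : #(Iio i × Iio i) < 𝔠 := by
      rw [mk_prod]
      simp only [lift_id]
      exact mul_lt_of_lt aleph0_le_continuum hI hI
    let N : Set C := (⋃ j : Iio i, {(g j.1 j.2).1}) ∪
      ⋃ jk : Iio i × Iio i, (fib (F jk.2.1) (g jk.1.1 jk.1.2).2 ∪ {F jk.2.1 (g jk.1.1 jk.1.2).2})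
    have hN : mu N = 0 := by
      refine measure_union_null ?_ ?_
      · exact hnull _ hI _ fun j => mu_singleton _
      · exact hnull _ hII _ fun jk => measure_union_null (mu_fib _ _) (mu_singleton _)
    have h1 : ∃ x ∈ B i, x ∉ N := by
      by_contra hc
      push Not at hc
      exact hB i (measure_mono_null hc hN)
    obtain ⟨x, hx, hxN⟩ := h1
    let M : Set C := (⋃ j : Iio i, {(g j.1 j.2).2}) ∪
      (⋃ jk : Iio i × Iio i,
        (fib (F jk.2.1) (g jk.1.1 jk.1.2).1 ∪ {F jk.2.1 (g jk.1.1 jk.1.2).1})) ∪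
      ⋃ k : Iio i, (fib (F k.1) x ∪ {F k.1 x})
    have hM : mu M = 0 := by
      refine measure_union_null (measure_union_null ?_ ?_) ?_
      · exact hnull _ hI _ fun j => mu_singleton _
      · exact hnull _ hII _ fun jk => measure_union_null (mu_fib _ _) (mu_singleton _)
      · exact hnull _ hI _ fun jk => measure_union_null (mu_fib _ _) (mu_singleton _)
    have h2 : ∃ y ∈ B i, y ∉ M := by
      by_contra hc
      push Not at hc
      exact hB i (measure_mono_null hc hM)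
    obtain ⟨y, hy, hyM⟩ := h2
    refine ⟨(x, y), hx, hy, fun j hj => ⟨fun h => hxN ?_, fun h => hyM ?_, fun k hk =>
      ⟨fun h => hxN ?_, fun h => hxN ?_, fun h => hyM ?_, fun h => hyM ?_⟩⟩, fun k hk =>
      ⟨fun h => hyM ?_, fun h => hyM ?_⟩⟩
    · exact Or.inl (mem_iUnion.2 ⟨⟨j, hj⟩, h⟩)
    · exact Or.inl (Or.inl (mem_iUnion.2 ⟨⟨j, hj⟩, h⟩))
    · exact Or.inr (mem_iUnion.2 ⟨(⟨j, hj⟩, ⟨k, hk⟩), Or.inl h⟩)
    · exact Or.inr (mem_iUnion.2 ⟨(⟨j, hj⟩, ⟨k, hk⟩), Or.inr h⟩)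
    · exact Or.inl (Or.inr (mem_iUnion.2 ⟨(⟨j, hj⟩, ⟨k, hk⟩), Or.inl h⟩))
    · exact Or.inl (Or.inr (mem_iUnion.2 ⟨(⟨j, hj⟩, ⟨k, hk⟩), Or.inr h⟩))
    · exact Or.inr (mem_iUnion.2 ⟨⟨k, hk⟩, Or.inl h⟩)
    · exact Or.inr (mem_iUnion.2 ⟨⟨k, hk⟩, Or.inr h⟩)
  obtain ⟨p, hp⟩ := exists_rec (r := fun a b : Lam => a < b) wellFounded_lt Q hQ
  refine ⟨fun i => (p i).1, fun i => (p i).2, ⟨fun i => (hp i).1, fun i => (hp i).2.1,
    fun i j hj => ((hp i).2.2.1 j hj).1, fun i j hj => ((hp i).2.2.1 j hj).2.1,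
    fun i j hj k hk => (((hp i).2.2.1 j hj).2.2 k hk).1,
    fun i j hj k hk => (((hp i).2.2.1 j hj).2.2 k hk).2.1,
    fun i j hj k hk => ?_, fun i j hj k hk => ?_⟩⟩
  · rcases hj.lt_or_eq with h | rfl
    · exact (((hp i).2.2.1 j h).2.2 k hk).2.2.1
    · exact ((hp j).2.2.2 k hk).1
  · rcases hj.lt_or_eq with h | rfl
    · exact (((hp i).2.2.1 j h).2.2 k hk).2.2.2
    · exact ((hp j).2.2.2 k hk).2

lemma inj_of_ne {x : Lam → C} (h : ∀ i, ∀ j < i, x i ≠ x j) : Function.Injective x := by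
  intro i j hij
  rcases lt_trichotomy i j with h1 | h1 | h1
  · exact absurd hij.symm (h j i h1)
  · exact h1
  · exact absurd hij (h i j h1)

/-- a set whose points with large index have their images in a countable set -/
lemma mk_range_lt {x : Lam → C} {F : C → C} {P : Set C} (hP : P.Countable) {k : Lam}
    {Z : Set C} (hZ : Z ⊆ range x) (h : ∀ i, k < i → x i ∈ Z → F (x i) ∈ P) :
    #(F '' Z) < 𝔠 := by
  have h1 : F '' Z ⊆ P ∪ (fun i => F (x i)) '' (Iic k) := by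
    rintro _ ⟨z, hz, rfl⟩
    obtain ⟨i, rfl⟩ := hZ hz
    by_cases hi : k < i
    · exact Or.inl (h i hi hz)
    · exact Or.inr ⟨i, not_lt.1 hi, rfl⟩
  refine (mk_le_mk_of_subset h1).trans_lt (mk_union_lt ?_ ?_)
  · exact hP.le_aleph0.trans_lt aleph0_lt_continuum
  · exact mk_image_le.trans_lt (mk_Iic_lam k)

/-- a dense family -/
lemma mk_inter_open {x : Lam → C} (hx : Function.Injective x) {e : Lam → BM × (ℕ × C) × C}
    (he : Function.Surjective e) (hxB : ∀ i, x i ∈ {z | Agr (e i).2.1.1 (e i).2.1.2 z})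
    {U : Set C} (hU : IsOpen U) (hne : U.Nonempty) : #(range x ∩ U : Set C) = 𝔠 := by
  refine le_antisymm ((mk_set_le _).trans mk_C.le) ?_
  obtain ⟨z, hz⟩ := hne
  obtain ⟨k, hk⟩ := exists_agr_of_isOpen hU hz
  choose i hi using fun p : C => he (⟨id, measurable_id⟩, (k, z), p)
  have h1 : ∀ p, x (i p) ∈ U := by
    intro p
    have h2 := hxB (i p)
    rw [hi p] at h2
    exact hk _ h2
  have h2 : #C ≤ #(range x ∩ U : Set C) := by
    refine mk_le_of_injective (f := fun p : C => (⟨x (i p), ⟨i p, rfl⟩, h1 p⟩ :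
      (range x ∩ U : Set C))) ?_
    intro p q hpq
    have h3 : x (i p) = x (i q) := congrArg Subtype.val hpq
    have h4 : i p = i q := hx h3
    have h5 := hi p
    rw [h4, hi q] at h5
    exact (congrArg (fun t : BM × (ℕ × C) × C => t.2.2) h5).symm
  rwa [mk_C] at h2

theorem exists_avoiding (hnull : ∀ (ι : Type), #ι < 𝔠 → ∀ N : ι → Set C, (∀ i, mu (N i) = 0) →
      mu (⋃ i, N i) = 0) :
    ∃ X Y : Set C, (∀ U : Set C, IsOpen U → U.Nonempty → #(X ∩ U : Set C) = 𝔠) ∧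
      (∀ U : Set C, IsOpen U → U.Nonempty → #(Y ∩ U : Set C) = 𝔠) ∧
      (∀ Z ⊆ X, ∀ F : C → C, Measurable F → (∀ z ∈ Z, F z ∈ Y) → #(F '' Z) < 𝔠) ∧
      (∀ Z ⊆ Y, ∀ F : C → C, Measurable F → (∀ z ∈ Z, F z ∈ X) → #(F '' Z) < 𝔠) := by
  classical
  have hT : #(BM × (ℕ × C) × C) ≤ 𝔠 := by
    rw [mk_prod, mk_prod, mk_prod, mk_C, mk_nat]
    simp only [lift_id]
    refine mul_le_of_le aleph0_le_continuum mk_borelMap ?_
    refine mul_le_of_le aleph0_le_continuum ?_ le_rfl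
    exact mul_le_of_le aleph0_le_continuum aleph0_le_continuum le_rfl
  have : Nonempty (BM × (ℕ × C) × C) :=
    ⟨⟨id, measurable_id⟩, (0, fun _ => true), fun _ => true⟩
  obtain ⟨e, he⟩ := exists_enum hT
  obtain ⟨x, y, hg⟩ := exists_good hnull (fun i => (e i).1.1)
    (fun i => {z | Agr (e i).2.1.1 (e i).2.1.2 z}) (fun i => by
      rw [mu_cyl]; exact (half_pow_pos _).ne')
  have hx := inj_of_ne hg.xx
  have hy := inj_of_ne hg.yy
  refine ⟨range x, range y, fun U hU hne => mk_inter_open hx he hg.xB hU hne,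
    fun U hU hne => mk_inter_open hy he hg.yB hU hne, ?_, ?_⟩
  · intro Z hZ F hF hFY
    obtain ⟨k, hk⟩ := he (⟨F, hF⟩, (0, fun _ => true), fun _ => true)
    have hk' : (e k).1.1 = F := by rw [hk]
    refine mk_range_lt (pos_countable hF) (k := k) hZ fun i hi hiZ => ?_
    obtain ⟨j, hj⟩ := hFY _ hiZ
    by_contra hc
    have hc' : mu (F ⁻¹' {F (x i)}) = 0 := not_not.1 hc
    rcases lt_or_ge j i with h | h
    · apply hg.xf i j h k hi
      simp only [hk']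
      rw [hj]
      exact mem_fib hc' rfl
    · apply hg.yi j i h k (hi.trans_le h)
      simp only [hk']
      exact hj
  · intro Z hZ F hF hFX
    obtain ⟨k, hk⟩ := he (⟨F, hF⟩, (0, fun _ => true), fun _ => true)
    have hk' : (e k).1.1 = F := by rw [hk]
    refine mk_range_lt (pos_countable hF) (k := k) hZ fun i hi hiZ => ?_
    obtain ⟨j, hj⟩ := hFX _ hiZ
    by_contra hc
    have hc' : mu (F ⁻¹' {F (y i)}) = 0 := not_not.1 hc
    rcases le_or_gt j i with h | h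
    · apply hg.yf i j h k hi
      simp only [hk']
      rw [hj]
      exact mem_fib hc' rfl
    · apply hg.xi j i h k (hi.trans h)
      simp only [hk']
      exact hj

end Pool.Agent.R475.Avoid
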