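import Pool.Agent.R475.Avoid.Pieces

/-!
# Under Martin's axiom no set of size continuum in every open set totally avoids another one
-/

set_option autoImplicit false

namespace Pool.Agent.R475.Avoid

open Set Cardinal Topology Pool.Agent.H3R3.Rigid Pool.Agent.W684 Pool.Agent.R475.SH

lemma continuous_of_agr_sub {Z : Set C} {h : Z → C}
    (H : ∀ p : Z, ∀ m, ∃ k, ∀ q : Z, Agr k p.1 q.1 → Agr m (h p) (h q)) : Continuous h := by
  rw [continuous_iff_continuousAt]
  intro p
  rw [ContinuousAt, Filter.tendsto_def]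
  intro s hs
  obtain ⟨U, hUs, hU, hpU⟩ := mem_nhds_iff.1 hs
  obtain ⟨m, hm⟩ := exists_agr_of_isOpen hU hpU
  obtain ⟨k, hk⟩ := H p m
  refine mem_nhds_iff.2 ⟨Subtype.val ⁻¹' {q | Agr k p.1 q}, fun q hq => hUs (hm _ (hk q hq)),
    (isOpen_agr k p.1).preimage continuous_subtype_val, agr_refl k p.1⟩

theorem exists_bad (hMA : MartinAxiomAleph1) {X Y : Set C}
    (hX : ∀ U : Set C, IsOpen U → U.Nonempty → #(X ∩ U : Set C) = 𝔠)
    (hY : ∀ U : Set C, IsOpen U → U.Nonempty → #(Y ∩ U : Set C) = 𝔠) :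
    ∃ Z ⊆ X, #Z = #X ∧ ∃ f : Z → Y, Continuous f ∧ ¬ (range f).Countable := by
  classical
  have hXc : #X = 𝔠 := by
    have h := hX univ isOpen_univ univ_nonempty
    rwa [inter_univ] at h
  have hYc : #Y = 𝔠 := by
    have h := hY univ isOpen_univ univ_nonempty
    rwa [inter_univ] at h
  have hal : (ℵ₁ : Cardinal.{0}) ≤ 𝔠 := aleph_one_le_continuum
  obtain ⟨A, hAX, hA⟩ := le_mk_iff_exists_subset.1 (hal.trans hXc.ge)
  obtain ⟨g⟩ : #A ≤ #Y := by
    rw [hA, hYc]; exact hal
  obtain ⟨y0, hy0⟩ : Y.Nonempty := by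
    rw [nonempty_iff_ne_empty]
    rintro rfl
    rw [mk_eq_zero] at hYc
    exact continuum_ne_zero hYc.symm
  let f : C → C := fun a => if h : a ∈ A then (g ⟨a, h⟩).1 else y0
  have hfY : ∀ a, f a ∈ Y := by
    intro a
    simp only [f]
    split_ifs with h
    · exact (g ⟨a, h⟩).2
    · exact hy0
  have hfinj : ∀ a ∈ A, ∀ b ∈ A, f a = f b → a = b := by
    intro a ha b hb hab
    simp only [f, dif_pos ha, dif_pos hb] at hab
    exact congrArg Subtype.val (g.injective (Subtype.ext hab))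
  obtain ⟨B, hB1, hB2⟩ := exists_pieces hMA f A hA.le
  have hAunc : ¬ A.Countable := by
    rw [← le_aleph0_iff_set_countable, hA, not_le]
    exact aleph0_lt_aleph_one
  obtain ⟨k, hk⟩ : ∃ k, ¬ (B k).Countable := by
    by_contra hc
    push Not at hc
    rw [hB1] at hAunc
    exact hAunc (countable_iUnion hc)
  have hBA : B k ⊆ A := by
    rw [hB1]; exact subset_iUnion _ _
  obtain ⟨b, hb⟩ : ∃ b : Bool, ¬ (B k ∩ {z | z 0 = b}).Countable := by
    by_contra hc
    push Not at hc
    refine hk (((hc true).union (hc false)).mono fun z hz => ?_)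
    cases h : z 0
    · exact Or.inr ⟨hz, h⟩
    · exact Or.inl ⟨hz, h⟩
  have hopen : ∀ c : Bool, IsOpen {z : C | z 0 = c} := by
    intro c
    have h : Continuous (fun z : C => z 0) := continuous_apply 0
    exact (isOpen_discrete {c}).preimage h
  let Z : Set C := (B k ∩ {z | z 0 = b}) ∪ (X ∩ {z | z 0 = !b})
  have hZX : Z ⊆ X := by
    rintro z (hz | hz)
    · exact hAX (hBA hz.1)
    · exact hz.1
  have hZc : #Z = #X := by
    refine le_antisymm (mk_le_mk_of_subset hZX) ?_
    rw [hXc, ← hX _ (hopen (!b)) ⟨fun _ => !b, rfl⟩]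
    exact mk_le_mk_of_subset subset_union_right
  let f' : C → C := fun z => if z 0 = b then f z else y0
  have hf'Y : ∀ z, f' z ∈ Y := by
    intro z
    simp only [f']
    split_ifs
    · exact hfY z
    · exact hy0
  have hZB : ∀ z ∈ Z, z 0 = b → z ∈ B k := by
    rintro z (hz | hz) h
    · exact hz.1
    · have h2 : z 0 = !b := hz.2
      rw [h] at h2
      cases b <;> simp at h2
  have hcont : Continuous (fun z : Z => f' z.1) := by
    refine continuous_of_agr_sub fun p m => ?_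
    by_cases hp : p.1 0 = b
    · obtain ⟨n, hn⟩ := hB2 k p.1 (hZB p.1 p.2 hp) m
      refine ⟨max n 1, fun q hq => ?_⟩
      have h0 : q.1 0 = b := by
        rw [hq 0 (lt_of_lt_of_le one_pos (le_max_right _ _))]; exact hp
      simp only [f', if_pos hp, if_pos h0]
      exact hn q.1 (hZB q.1 q.2 h0) (hq.mono (le_max_left _ _))
    · refine ⟨1, fun q hq => ?_⟩
      have h0 : q.1 0 ≠ b := by
        rw [hq 0 one_pos]; exact hp
      simp only [f', if_neg hp, if_neg h0]
      exact agr_refl _ _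
  refine ⟨Z, hZX, hZc, fun z => ⟨f' z.1, hf'Y z.1⟩, hcont.subtype_mk _, fun hc => hb ?_⟩
  have h1 : (f' '' (B k ∩ {z | z 0 = b})).Countable := by
    refine (hc.image Subtype.val).mono ?_
    rintro _ ⟨z, hz, rfl⟩
    exact ⟨⟨f' z, hf'Y z⟩, ⟨⟨z, Or.inl hz⟩, rfl⟩, rfl⟩
  refine countable_of_injective_of_countable_image (f := f') ?_ h1
  intro z hz w hw hzw
  have hz2 : z 0 = b := hz.2
  have hw2 : w 0 = b := hw.2
  simp only [f', if_pos hz2, if_pos hw2] at hzw
  exact hfinj z (hBA hz.1) w (hBA hw.1) hzw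

end Pool.Agent.R475.Avoid
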