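import Pool.Agent.W910.Hull.MATools
import Pool.Agent.R475.SH.Rec

/-!
# Under Martin's axiom the union of `ℵ₁` null sets of the Cantor space is null
-/

set_option autoImplicit false

namespace Pool.Agent.R475.Avoid

open Set Cardinal Topology MeasureTheory Pool.Agent.H3R3.Rigid Pool.Agent.Y443.BR
open Pool.Agent.W684 Pool.Agent.R475.SH
open Pool.Agent.W910.Hull (ma_indexed)

theorem measure_iUnion_eq_iSup_finset {ι : Type} [Countable ι] (f : ι → Set C) :
    mu (⋃ i, f i) = ⨆ t : Finset ι, mu (⋃ i ∈ t, f i) := by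
  classical
  have h1 : (⋃ i, f i) = ⋃ t : Finset ι, ⋃ i ∈ t, f i := by
    ext x
    simp only [Set.mem_iUnion]
    constructor
    · rintro ⟨i, hi⟩
      exact ⟨{i}, i, by simp, hi⟩
    · rintro ⟨t, i, _, hi⟩
      exact ⟨i, hi⟩
  rw [h1]
  apply Directed.measure_iUnion
  intro s t
  refine ⟨s ∪ t, ?_, ?_⟩
  · intro x hx
    simp only [Set.mem_iUnion] at hx ⊢
    obtain ⟨i, hi, hx⟩ := hx
    exact ⟨i, Finset.mem_union_left _ hi, hx⟩
  · intro x hx
    simp only [Set.mem_iUnion] at hx ⊢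
    obtain ⟨i, hi, hx⟩ := hx
    exact ⟨i, Finset.mem_union_right _ hi, hx⟩

/-- finite unions of basic open sets -/
noncomputable def fu (t : Finset (TopologicalSpace.countableBasis C)) : Set C := ⋃ b ∈ t, b.1

theorem exists_fu {V : Set C} (hV : IsOpen V) (hfin : mu V ≠ ⊤) {δ : ENNReal} (hδ : δ ≠ 0) :
    ∃ t, fu t ⊆ V ∧ mu V < mu (fu t) + δ := by
  classical
  obtain ⟨S, hS1, hS2⟩ := (TopologicalSpace.isBasis_countableBasis C).open_eq_sUnion hV
  by_contra hcon
  push Not at hcon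
  have hSc : S.Countable := (TopologicalSpace.countable_countableBasis C).mono hS1
  have h1 : mu V = ⨆ t : Finset S, mu (⋃ b ∈ t, b.1) := by
    rw [hS2, Set.sUnion_eq_iUnion]
    have : Countable S := hSc.to_subtype
    exact measure_iUnion_eq_iSup_finset _
  have h2 : ∀ t : Finset S, mu (⋃ b ∈ t, b.1) + δ ≤ mu V := by
    intro t
    have h3 := hcon (t.image fun b => (⟨b.1, hS1 b.2⟩ : TopologicalSpace.countableBasis C)) (by
      intro x hx
      simp only [fu, Set.mem_iUnion, Finset.mem_image] at hx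
      obtain ⟨b, ⟨c, hc, rfl⟩, hx⟩ := hx
      rw [hS2]
      exact ⟨c.1, c.2, hx⟩)
    refine le_trans ?_ h3
    gcongr
    intro x hx
    simp only [Set.mem_iUnion] at hx
    obtain ⟨b, hb, hx⟩ := hx
    simp only [fu, Set.mem_iUnion, Finset.mem_image]
    exact ⟨_, ⟨b, hb, rfl⟩, hx⟩
  have h4 : mu V + δ ≤ mu V := by
    conv_lhs => rw [h1]
    rw [ENNReal.iSup_add]
    exact iSup_le h2
  exact absurd h4 (not_le.2 (ENNReal.lt_add_right hfin hδ))

/-- the amoeba preorder -/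
def Amoeba (ε : ENNReal) : Type := {V : Set C // IsOpen V ∧ mu V < ε}

instance (ε : ENNReal) : Preorder (Amoeba ε) where
  le V W := W.1 ⊆ V.1
  le_refl V := Set.Subset.refl _
  le_trans V W X h1 h2 := Set.Subset.trans h2 h1

theorem amoeba_ccc {ε : ENNReal} : IsCCC (Amoeba ε) := by
  intro A hA
  have h1 : ∀ V : Amoeba ε, ∃ t, fu t ⊆ V.1 ∧ mu V.1 < mu (fu t) + (ε - mu V.1) := by
    intro V
    exact exists_fu V.2.1 (V.2.2.trans_le le_top).ne (tsub_pos_of_lt V.2.2).ne'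
  choose t ht1 ht2 using h1
  refine Set.countable_of_injective_of_countable_image (f := t) (s := A) ?_
    (Set.to_countable _)
  intro V hV W hW heq
  by_contra hne
  wlog hle : mu V.1 ≤ mu W.1 generalizing V W
  · exact this hW hV heq.symm (fun h => hne h.symm) (le_of_not_ge hle)
  apply hA V hV W hW hne
  have hVtop : mu V.1 ≠ ⊤ := (V.2.2.trans_le le_top).ne
  have hWtop : mu W.1 ≠ ⊤ := (W.2.2.trans_le le_top).ne
  refine ⟨⟨V.1 ∪ W.1, V.2.1.union W.2.1, ?_⟩, Set.subset_union_left, Set.subset_union_right⟩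
  have h3 : mu (V.1 ∪ W.1) + mu (fu (t V)) ≤ mu V.1 + mu W.1 := by
    rw [← measure_union_add_inter V.1 W.2.1.measurableSet]
    gcongr
    exact Set.subset_inter (ht1 V) (heq ▸ ht1 W)
  have hfu : mu (fu (t V)) ≠ ⊤ :=
    ((measure_mono (ht1 V)).trans_lt (V.2.2.trans_le le_top)).ne
  by_contra hcon
  rw [not_lt] at hcon
  have h4 : mu W.1 < mu (fu (t V)) + (ε - mu W.1) := by
    rw [heq]
    exact ht2 W
  have h5 : mu V.1 + mu W.1 < mu V.1 + (mu (fu (t V)) + (ε - mu W.1)) :=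
    ENNReal.add_lt_add_left hVtop h4
  have h6 : mu V.1 + (mu (fu (t V)) + (ε - mu W.1)) ≤ ε + mu (fu (t V)) := by
    calc mu V.1 + (mu (fu (t V)) + (ε - mu W.1))
        ≤ mu W.1 + (mu (fu (t V)) + (ε - mu W.1)) := by gcongr
      _ = (mu W.1 + (ε - mu W.1)) + mu (fu (t V)) := by ring
      _ = ε + mu (fu (t V)) := by rw [add_tsub_cancel_of_le W.2.2.le]
  have h7 : ε + mu (fu (t V)) ≤ mu (V.1 ∪ W.1) + mu (fu (t V)) := by gcongr
  exact absurd (h7.trans h3) (not_le.2 (h5.trans_le h6))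

/-- Under Martin's axiom the union of `ℵ₁` null sets is null. -/
theorem null_iUnion (hMA : MartinAxiomAleph1) {ι : Type} (hι : #ι ≤ ℵ₁) (N : ι → Set C)
    (hN : ∀ i, mu (N i) = 0) : mu (⋃ i, N i) = 0 := by
  rw [← nonpos_iff_eq_zero]
  refine le_of_forall_gt fun ε hε => ?_
  have hε : 0 < ε := hε
  obtain ⟨ε', hε'0, hε'⟩ := exists_between hε
  have : Nonempty (Amoeba ε') := ⟨⟨∅, isOpen_empty, by simpa using hε'0⟩⟩
  obtain ⟨G, ⟨V0, hV0⟩, _, hG, hGD⟩ := ma_indexed hMA
    (amoeba_ccc (ε := ε')) hι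
    (fun i => {V | N i ⊆ V.1}) (by
      intro i V
      obtain ⟨O, hO1, hO2, hO3⟩ := Set.exists_isOpen_lt_of_lt (μ := mu) (N i)
        (ε' - mu V.1) (by rw [hN i]; exact tsub_pos_of_lt V.2.2)
      refine ⟨⟨V.1 ∪ O, V.2.1.union hO2, ?_⟩, hO1.trans Set.subset_union_right,
        Set.subset_union_left⟩
      calc mu (V.1 ∪ O) ≤ mu V.1 + mu O := measure_union_le _ _
        _ < mu V.1 + (ε' - mu V.1) :=
            ENNReal.add_lt_add_left (V.2.2.trans_le le_top).ne hO3
        _ = ε' := add_tsub_cancel_of_le V.2.2.le)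
  have hfin : ∀ t : Finset (Amoeba ε'), (∀ V ∈ t, V ∈ G) → ∃ W ∈ G, ∀ V ∈ t, V.1 ⊆ W.1 := by
    classical
    intro t
    induction t using Finset.induction_on with
    | empty => exact fun _ => ⟨V0, hV0, by simp⟩
    | insert V t _ ih =>
      intro h
      obtain ⟨W, hW, h1⟩ := ih fun V' hV' => h V' (Finset.mem_insert_of_mem hV')
      obtain ⟨r, hr, h2, h3⟩ := hG V (h V (Finset.mem_insert_self _ _)) W hW
      refine ⟨r, hr, fun V' hV' => ?_⟩
      rcases Finset.mem_insert.1 hV' with rfl | h4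
      · exact h2
      · exact (h1 V' h4).trans h3
  obtain ⟨T, hTsub, hTc, hTeq⟩ := TopologicalSpace.isOpen_biUnion_countable G (fun V => V.1)
    (fun V _ => V.2.1)
  have hle : mu (⋃ V ∈ G, V.1) ≤ ε' := by
    rw [← hTeq, Set.biUnion_eq_iUnion]
    have : Countable T := hTc.to_subtype
    rw [measure_iUnion_eq_iSup_finset]
    refine iSup_le fun t => ?_
    obtain ⟨W, _, hW⟩ := hfin (t.map (Function.Embedding.subtype _)) (by
      intro V hV
      obtain ⟨V', _, rfl⟩ := Finset.mem_map.1 hV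
      exact hTsub V'.2)
    refine (measure_mono ?_).trans W.2.2.le
    refine Set.iUnion₂_subset fun V hV => hW V.1 ?_
    exact Finset.mem_map.2 ⟨V, hV, rfl⟩
  refine ((measure_mono ?_).trans hle).trans_lt hε'
  refine Set.iUnion_subset fun i => ?_
  obtain ⟨V, hV, hVi⟩ := hGD i
  exact Set.Subset.trans hVi (Set.subset_biUnion_of_mem (u := fun V : Amoeba ε' => V.1) hV)

end Pool.Agent.R475.Avoid
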