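import Pool.Agent.W910.Hull.MATools
import Pool.Agent.R475.SH.Rec

/-!
# Under Martin's axiom every function on a set of size `ℵ₁` is a countable union of continuous ones
-/

set_option autoImplicit false

namespace Pool.Agent.R475.Avoid

open Set Cardinal Topology Pool.Agent.H3R3.Rigid Pool.Agent.W684
open Pool.Agent.W910.Hull (ma_indexed)

/-- the restriction to the first `n` coordinates -/
def res (n : ℕ) (a : C) : Fin n → Bool := fun i => a i.1

lemma agr_iff_res {n : ℕ} {a b : C} : Agr n a b ↔ res n b = res n a := by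
  constructor
  · intro h
    funext i
    exact h i.1 i.2
  · intro h i hi
    exact congrFun h ⟨i, hi⟩

/-- the pairs of finite sequences of the same length -/
abbrev E : Type := Σ n : ℕ, (Fin n → Bool) × (Fin n → Bool)

/-- `e` speaks of `a` -/
def Mat (e : E) (a : C) : Prop := res e.1 a = e.2.1

/-- `e` says the truth about `f a` -/
def Cor (f : C → C) (e : E) (a : C) : Prop := e.2.2 = res e.1 (f a)

/-- finite sets of pairs with promises -/
def PP (_f : C → C) (A : Set C) : Type := Finset E × Finset A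

instance (f : C → C) (A : Set C) : Preorder (PP f A) where
  le q p := p.1 ⊆ q.1 ∧ p.2 ⊆ q.2 ∧ ∀ e ∈ q.1, e ∉ p.1 → ∀ a ∈ p.2, Mat e a.1 → Cor f e a.1
  le_refl p := ⟨Finset.Subset.refl _, Finset.Subset.refl _, fun e h1 h2 => absurd h1 h2⟩
  le_trans r q p h1 h2 := by
    refine ⟨h2.1.trans h1.1, h2.2.1.trans h1.2.1, fun e he hep a ha hm => ?_⟩
    by_cases heq : e ∈ q.1
    · exact h2.2.2 e heq hep a ha hm
    · exact h1.2.2 e he heq a (h2.2.1 ha) hm

instance (f : C → C) (A : Set C) : Nonempty (PP f A) := ⟨((∅ : Finset E), (∅ : Finset A))⟩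

lemma pp_ccc (f : C → C) (A : Set C) : IsCCC (PP f A) := by
  classical
  intro S hS
  refine Set.countable_of_injective_of_countable_image (f := fun p : PP f A => p.1) (s := S) ?_
    (Set.to_countable _)
  intro p hp q hq heq
  by_contra hne
  have heq : p.1 = q.1 := heq
  apply hS p hp q hq hne
  refine ⟨(p.1, p.2 ∪ q.2), ⟨Finset.Subset.refl _, Finset.subset_union_left,
    fun e h1 h2 => absurd h1 h2⟩, ⟨?_, Finset.subset_union_right, fun e h1 h2 => ?_⟩⟩
  · exact heq ▸ Finset.Subset.refl _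
  · exact absurd (heq ▸ h1) h2

/-- the dense sets -/
def DD (f : C → C) (A : Set C) (i : A × ℕ) : Set (PP f A) :=
  {p | i.1 ∈ p.2 ∧ ∃ e ∈ p.1, i.2 ≤ e.1 ∧ Mat e i.1.1 ∧ Cor f e i.1.1}

lemma exists_sep (a : C) (F : Finset C) : ∃ k, ∀ b ∈ F, ∀ n, k ≤ n → res n a = res n b → a = b := by
  classical
  induction F using Finset.induction_on with
  | empty => exact ⟨0, fun b hb => absurd hb (Finset.notMem_empty b)⟩
  | insert c F _ ih =>
    obtain ⟨k, hk⟩ := ih
    have h1 : ∃ l, ∀ n, l ≤ n → res n a = res n c → a = c := by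
      by_cases hac : a = c
      · exact ⟨0, fun _ _ _ => hac⟩
      · obtain ⟨i, hi⟩ := Function.ne_iff.1 hac
        refine ⟨i + 1, fun n hn h => absurd (congrFun h ⟨i, hn⟩) hi⟩
    obtain ⟨l, hl⟩ := h1
    refine ⟨max k l, fun b hb n hn h => ?_⟩
    rcases Finset.mem_insert.1 hb with rfl | hb
    · exact hl n ((le_max_right _ _).trans hn) h
    · exact hk b hb n ((le_max_left _ _).trans hn) h

lemma dd_dense (f : C → C) (A : Set C) (i : A × ℕ) (p : PP f A) : ∃ q ∈ DD f A i, q ≤ p := by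
  classical
  obtain ⟨k, hk⟩ := exists_sep i.1.1 (p.2.image Subtype.val)
  let n := max k i.2
  let e : E := ⟨n, res n i.1.1, res n (f i.1.1)⟩
  refine ⟨(insert e p.1, insert i.1 p.2), ⟨Finset.mem_insert_self _ _, e,
    Finset.mem_insert_self _ _, le_max_right _ _, rfl, rfl⟩, Finset.subset_insert _ _,
    Finset.subset_insert _ _, fun e' he' hne a ha hm => ?_⟩
  rcases Finset.mem_insert.1 he' with rfl | h
  · have h1 : i.1.1 = a.1 := hk a.1 (Finset.mem_image_of_mem _ ha) n (le_max_left _ _) hm.symm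
    show res n (f i.1.1) = res n (f a.1)
    rw [h1]
  · exact absurd h hne

/-- Under Martin's axiom every function on a set of size at most `ℵ₁` is a countable union of
continuous functions. -/
theorem exists_pieces (hMA : MartinAxiomAleph1) (f : C → C) (A : Set C) (hA : #A ≤ ℵ₁) :
    ∃ B : ℕ → Set C, (A = ⋃ k, B k) ∧ ∀ k, ∀ a ∈ B k, ∀ m, ∃ n, ∀ b ∈ B k, Agr n a b →
      Agr m (f a) (f b) := by
  classical
  have hι : #(A × ℕ) ≤ ℵ₁ := by
    rw [mk_prod, mk_nat, lift_id, lift_aleph0]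
    exact mul_le_of_le (aleph0_le_aleph 1) hA (aleph0_le_aleph 1)
  obtain ⟨G, _, _, hG, hGD⟩ := ma_indexed hMA (pp_ccc f A) hι (DD f A) (dd_dense f A)
  let S : Set E := {e | ∃ p ∈ G, e ∈ p.1}
  refine ⟨fun k => {a | a ∈ A ∧ ∀ e ∈ S, k ≤ e.1 → Mat e a → Cor f e a}, ?_, ?_⟩
  · ext a
    rw [mem_iUnion]
    constructor
    · intro ha
      obtain ⟨p, hpG, hp, _⟩ := hGD (⟨a, ha⟩, 0)
      refine ⟨p.1.sup (fun e => e.1) + 1, ha, fun e ⟨q, hqG, hq⟩ hk hm => ?_⟩
      obtain ⟨r, hrG, hrp, hrq⟩ := hG p hpG q hqG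
      have h1 : e ∉ p.1 := by
        intro he
        have h2 : e.1 ≤ p.1.sup (fun e => e.1) := Finset.le_sup (f := fun e : E => e.1) he
        omega
      exact hrp.2.2 e (hrq.1 hq) h1 ⟨a, ha⟩ hp hm
    · rintro ⟨k, ha, _⟩
      exact ha
  · rintro k a ⟨ha, hak⟩ m
    obtain ⟨p, hpG, _, e, he, hm, hme, hce⟩ := hGD (⟨a, ha⟩, max k m)
    refine ⟨e.1, fun b ⟨hb, hbk⟩ hab => ?_⟩
    have h1 : Mat e b := by
      show res e.1 b = e.2.1
      rw [agr_iff_res.1 hab]
      exact hme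
    have h2 : Cor f e b := hbk e ⟨p, hpG, he⟩ ((le_max_left _ _).trans hm) h1
    have h3 : Agr e.1 (f a) (f b) := by
      rw [agr_iff_res]
      have h4 : e.2.2 = res e.1 (f a) := hce
      have h5 : e.2.2 = res e.1 (f b) := h2
      rw [← h4, h5]
    exact h3.mono ((le_max_right _ _).trans hm)

end Pool.Agent.R475.Avoid
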